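import Mathlib
import Pool.Agent.Q86.LSS

set_option autoImplicit false

universe u

namespace Pool.Agent.Results.MP_024e1e_ag.MinusHamiltonCycle

open Pool.Agent.Q86.LSS SimpleGraph

/-- **Negative answer.**  For every field `K` and every `m ≥ 7` there is a subgraph `G` of
`K_{m,m}` (namely `K_{m,m}` minus a Hamiltonian cycle) containing no `K_{a,b}` with `a, b ≥ 1`
and `a + b ≥ m`, such that the Lovász–Saks–Schrijver ideal `L_G(m - 1)` is not prime. -/
theorem result (K : Type u) [Field K] (m : ℕ) (hm : 7 ≤ m) :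
    ∃ G : SimpleGraph (Fin m ⊕ Fin m), G ≤ completeBipartiteGraph (Fin m) (Fin m) ∧
      (∀ a b : ℕ, 1 ≤ a → 1 ≤ b → m ≤ a + b →
        ¬ (completeBipartiteGraph (Fin a) (Fin b)).IsContained G) ∧
      ¬ (lssIdeal K G (m - 1)).IsPrime := by
  obtain ⟨n, rfl⟩ : ∃ n, m = n + 3 := ⟨m - 3, by omega⟩
  refine ⟨cyc (n + 3), cyc_le _, fun a b ha hb hab => no_Kab ha hb hab, ?_⟩
  exact not_prime K n (by omega)

end Pool.Agent.Results.MP_024e1e_ag.MinusHamiltonCycle
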